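import Pool.Agent.H33.CB.Stmt
import Pool.Agent.H33.CB.Ex.SMain
import Pool.Agent.H33.CB.Ex.Final

/-!
# A freely `2`-periodic slice knot which is not standardly equivariantly slice (cubical form)

All notions are in `Pool/Agent/H33/CB/Stmt.lean`: knots, discs and annuli are subcomplexes of the
standard cubulation of `ℝ⁴`; the knot lies in the boundary (a three-sphere) of a box centred at the
origin, on which the free involution is `x ↦ -x`.
-/

namespace Pool.Agent.Results.MP_6b3d35_gt.CubicalSliceNotStandard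

theorem result : ∃ (n : Fin 4 → ℕ) (K : Finset Cub.Cell), (∀ i, 1 ≤ n i) ∧
    Cub.IsPeriodicKnot n K ∧ Cub.Slice n K ∧ ¬ Cub.StdSlice n K := by
  refine ⟨Cub.Ex.n, Cub.Ex.K, ?_, Cub.Ex.K_periodic, Cub.Ex.K_slice,
    Cub.Ex.not_stdSlice Cub.Ex.K_periodic⟩
  intro i
  fin_cases i <;> simp [Cub.Ex.n]

end Pool.Agent.Results.MP_6b3d35_gt.CubicalSliceNotStandard
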