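import Mathlib
import Pool.Agent.H61.RP.Main

/-!
# MP_6b3d35_gt: a freely 2-periodic slice knot whose quotient is not concordant to the line

Q1 asks whether there is a freely 2-periodic slice knot in `S³` whose quotient class 1 knot `K` in
`RP³` is not concordant to the unknot `U₁`.  The answer is yes.

The knot `K` (`FPS.Kex`) has a diagram with 7 strands and 22 crossings.  The file
`Pool/Agent/H61/RP/Defs.lean` describes the model: oriented link diagrams as tangle words closed up
in the annulus (links in `S³`) or in the Moebius band (links in `RP³`), Reidemeister moves, planar
isotopies, the moves at the seam and at the pole, births and saddles, concordance by movies.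
The proof is elementary: a ribbon movie for the preimage of `K` is checked in
`Pool/Agent/H61/RP/MovieChk.lean`; the obstruction is the signature, at the third root of unity, of a
quadratic form on the labellings of the regions of a diagram.
-/

namespace Pool.Agent.Results.MP_6b3d35_gt.SliceNotStandard

open FPS

/-- There is a class 1 knot `K` in `RP³` whose preimage in `S³` is a slice knot and which is not
concordant to the projective line. -/
theorem result : ∃ K : Dg, IsKnot .RP3 K ∧ Odd K.s.length ∧ IsKnot .S3 (lift K) ∧
    Concordant .S3 (lift K) line ∧ ¬ Concordant .RP3 K line :=
  FPS.main

end Pool.Agent.Results.MP_6b3d35_gt.SliceNotStandard
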